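import Pool.Agent.Helper77.MT.Zar

/-!
# KM, block B6: multiplicative relations between the eigenvalues
-/

set_option autoImplicit false

open Matrix H77MT

namespace Pool.Agent.Helper67.KM

variable {K : Type} [Field K] {n : Type} [Fintype n] [DecidableEq n]

/-- a symmetric polynomial of the eigenvalues is a polynomial in the entries -/
lemma exists_poly (q : MvPolynomial n K) (hq : q.IsSymmetric) :
    ∃ p : MvPolynomial (n × n) K, ∀ (M : Matrix n n K) (v : n → K),
      M.charpoly = ∏ i, (Polynomial.X - Polynomial.C (v i)) → ev M p = MvPolynomial.eval v q := by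
  classical
  obtain ⟨P, hP⟩ := MvPolynomial.esymmAlgHom_surjective (σ := n) K (n := Fintype.card n) le_rfl
    ⟨q, hq⟩
  have hP' : MvPolynomial.aeval (fun i : Fin (Fintype.card n) => MvPolynomial.esymm n K (i + 1)) P = q := by
    rw [← MvPolynomial.esymmAlgHom_apply, hP]
  refine ⟨MvPolynomial.aeval (fun i : Fin (Fintype.card n) =>
    MvPolynomial.C ((-1 : K) ^ ((i : ℕ) + 1)) *
      (Matrix.charpoly.univ K n).coeff (Fintype.card n - (i + 1))) P, ?_⟩
  intro M v hM
  have h1 : ev M (MvPolynomial.aeval (fun i : Fin (Fintype.card n) =>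
      MvPolynomial.C ((-1 : K) ^ ((i : ℕ) + 1)) *
        (Matrix.charpoly.univ K n).coeff (Fintype.card n - (i + 1))) P) =
      MvPolynomial.aeval (fun i : Fin (Fintype.card n) => (-1 : K) ^ ((i : ℕ) + 1) *
        M.charpoly.coeff (Fintype.card n - (i + 1))) P := by
    rw [MvPolynomial.comp_aeval_apply]
    congr 1
    congr 1
    funext i
    rw [map_mul, ev_C]
    congr 1
    have h2 := Matrix.charpoly.univ_coeff_eval₂Hom n (RingHom.id K) (fun p => M p.1 p.2)
      (Fintype.card n - (i + 1))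
    have h3 : Matrix.of (Function.curry fun p : n × n => M p.1 p.2) = M := by
      ext a b
      rfl
    rw [h3] at h2
    exact h2
  rw [h1, ← hP']
  have h4 : MvPolynomial.eval v (MvPolynomial.aeval (fun i : Fin (Fintype.card n) =>
      MvPolynomial.esymm n K (i + 1)) P) =
      MvPolynomial.aeval (fun i : Fin (Fintype.card n) =>
        MvPolynomial.eval v (MvPolynomial.esymm n K (i + 1))) P := by
    have h5 := MvPolynomial.comp_aeval_apply (R := K) (fun i : Fin (Fintype.card n) =>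
      MvPolynomial.esymm n K (i + 1)) (MvPolynomial.aeval v) P
    rw [← MvPolynomial.coe_aeval_eq_eval]
    exact h5
  rw [h4]
  congr 1
  congr 1
  funext i
  have h6 : M.charpoly = (((Finset.univ.val.map v).map fun t => Polynomial.X - Polynomial.C t)).prod := by
    rw [hM, Multiset.map_map]
    rfl
  have h7 : Fintype.card n - (i + 1) ≤ Multiset.card (Finset.univ.val.map v) := by
    rw [Multiset.card_map]
    exact (Nat.sub_le _ _).trans (le_of_eq (by rfl))
  have h8 := Multiset.prod_X_sub_C_coeff (Finset.univ.val.map v) h7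
  rw [h6, h8]
  have h9 : Multiset.card (Finset.univ.val.map v) = Fintype.card n := by
    rw [Multiset.card_map]
    rfl
  rw [h9]
  have h10 : Fintype.card n - (Fintype.card n - ((i : ℕ) + 1)) = i + 1 := by
    have := i.2
    omega
  rw [h10, ← mul_assoc, ← pow_add, Even.neg_one_pow ⟨_, rfl⟩, one_mul]
  rw [← MvPolynomial.aeval_esymm_eq_multiset_esymm n K, ← MvPolynomial.coe_aeval_eq_eval]
  rfl

/-- the relation polynomial -/
noncomputable def rel (m : n → ℤ) : MvPolynomial n K :=
  ∏ σ : Equiv.Perm n, MvPolynomial.rename σ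
    (∏ i, MvPolynomial.X i ^ (m i).toNat - ∏ i, MvPolynomial.X i ^ (-m i).toNat)

lemma rel_symm (m : n → ℤ) : (rel (K := K) m).IsSymmetric := by
  intro τ
  unfold rel
  rw [map_prod]
  simp_rw [MvPolynomial.rename_rename]
  refine Fintype.prod_equiv (Equiv.mulLeft τ) _ _ fun σ => ?_
  rfl

lemma eval_rel (m : n → ℤ) (v : n → K) : MvPolynomial.eval v (rel m) =
    ∏ σ : Equiv.Perm n, (∏ i, v (σ i) ^ (m i).toNat - ∏ i, v (σ i) ^ (-m i).toNat) := by
  unfold rel
  rw [map_prod]
  refine Finset.prod_congr rfl fun σ _ => ?_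
  rw [MvPolynomial.eval_rename]
  simp

lemma rel_zero {m : n → ℤ} {v : n → K} (h : ∏ i, v i ^ m i = 1) : MvPolynomial.eval v (rel m) = 0 := by
  rw [eval_rel]
  refine Finset.prod_eq_zero (Finset.mem_univ 1) ?_
  rw [sub_eq_zero]
  have h1 : ∀ i, v i ^ (m i).toNat = v i ^ m i * v i ^ (-m i).toNat := by
    intro i
    rcases le_or_gt 0 (m i) with h2 | h2
    · have h3 : (-m i).toNat = 0 := by omega
      rw [h3, pow_zero, mul_one]
      obtain ⟨k, hk⟩ := Int.eq_ofNat_of_zero_le h2
      rw [hk]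
      simp
    · have h3 : (m i).toNat = 0 := by omega
      rw [h3, pow_zero]
      have h4 : v i ≠ 0 := by
        intro h0
        have h5 : v i ^ m i = 0 := by rw [h0, _root_.zero_zpow _ h2.ne]
        have h6 : ∏ i, v i ^ m i = 0 := Finset.prod_eq_zero (Finset.mem_univ i) h5
        rw [h6] at h
        exact zero_ne_one h
      have h5 : m i = -(((-m i).toNat : ℕ) : ℤ) := by omega
      rw [h5, _root_.zpow_neg, _root_.zpow_natCast]
      have h6 : (-(-(((-m i).toNat : ℕ) : ℤ))).toNat = (-m i).toNat := by omega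
      rw [h6]
      exact (inv_mul_cancel₀ (pow_ne_zero _ h4)).symm
  show ∏ i, v i ^ (m i).toNat = ∏ i, v i ^ (-m i).toNat
  rw [Finset.prod_congr rfl fun i _ => h1 i, Finset.prod_mul_distrib, h, one_mul]

lemma prod_zp {ι : Type*} (s : Finset ι) (f : ι → ℤ) {x : K} (hx : x ≠ 0) :
    ∏ i ∈ s, x ^ f i = x ^ ∑ i ∈ s, f i := by
  classical
  induction s using Finset.induction_on with
  | empty => simp
  | insert a s ha ih => rw [Finset.prod_insert ha, Finset.sum_insert ha, ih, zpow_add₀ hx]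

lemma two_zpow [CharZero K] {a b : ℤ} (h : (2 : K) ^ a = 2 ^ b) : a = b := by
  have h2 : (2 : ℚ) ^ a = 2 ^ b := by
    have : (((2 : ℚ) ^ a : ℚ) : K) = ((2 ^ b : ℚ) : K) := by
      push_cast
      exact h
    exact_mod_cast this
  exact zpow_right_injective₀ (by norm_num) (by norm_num) h2

/-- a good diagonal matrix -/
lemma exists_diag (m : n → ℤ) (hm : ¬ ∀ i j, m i = m j) :
    ∃ a : n → ℤ, ∑ i, a i = 0 ∧ ∀ σ : Equiv.Perm n, ∑ i, a (σ i) * m i ≠ 0 := by
  classical
  let e : n ≃ Fin (Fintype.card n) := Fintype.equivFin n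
  let c : n → ℤ := fun i => Fintype.card n * m i - ∑ k, m k
  have hc : ∃ i, c i ≠ 0 := by
    by_contra hcon
    push Not at hcon
    apply hm
    intro i j
    have h1 : (Fintype.card n : ℤ) * m i = Fintype.card n * m j := by
      have h2 := hcon i
      have h3 := hcon j
      show _ = _
      have h4 : (Fintype.card n : ℤ) * m i - ∑ k, m k = 0 := h2
      have h5 : (Fintype.card n : ℤ) * m j - ∑ k, m k = 0 := h3
      linarith
    have h2 : (Fintype.card n : ℤ) ≠ 0 := by
      have : Nonempty n := ⟨i⟩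
      exact_mod_cast Fintype.card_ne_zero
    exact mul_left_cancel₀ h2 h1
  let Q : Equiv.Perm n → Polynomial ℤ := fun σ =>
    ∑ i, Polynomial.C (c i) * Polynomial.X ^ (e (σ i) : ℕ)
  have hQ : ∀ σ, Q σ ≠ 0 := by
    intro σ h0
    obtain ⟨i, hi⟩ := hc
    apply hi
    have h1 : (Q σ).coeff (e (σ i)) = c i := by
      show (∑ i, Polynomial.C (c i) * Polynomial.X ^ (e (σ i) : ℕ)).coeff _ = _
      rw [Polynomial.finsetSum_coeff]
      simp_rw [Polynomial.coeff_C_mul_X_pow]
      rw [Finset.sum_eq_single i]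
      · rw [if_pos rfl]
      · intro j _ hj
        rw [if_neg]
        intro h
        exact hj (σ.injective (e.injective (Fin.ext h))).symm
      · intro h
        exact absurd (Finset.mem_univ i) h
    rw [← h1, h0, Polynomial.coeff_zero]
  have hprod : ∏ σ, Q σ ≠ 0 := Finset.prod_ne_zero_iff.2 fun σ _ => hQ σ
  obtain ⟨B, hB⟩ : ∃ B : ℤ, (∏ σ, Q σ).eval B ≠ 0 := by
    by_contra hcon
    push Not at hcon
    exact hprod (Polynomial.funext fun r => by rw [hcon r, Polynomial.eval_zero])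
  refine ⟨fun i => Fintype.card n * B ^ (e i : ℕ) - ∑ k, B ^ (e k : ℕ), ?_, ?_⟩
  · rw [Finset.sum_sub_distrib, ← Finset.mul_sum, Finset.sum_const, Finset.card_univ, nsmul_eq_mul,
      sub_self]
  · intro σ hσ
    rw [Polynomial.eval_prod] at hB
    apply (Finset.prod_ne_zero_iff.1 hB) σ (Finset.mem_univ σ)
    show (∑ i, Polynomial.C (c i) * Polynomial.X ^ (e (σ i) : ℕ)).eval B = 0
    rw [Polynomial.eval_finsetSum, ← hσ]
    simp only [Polynomial.eval_mul, Polynomial.eval_C, Polynomial.eval_pow, Polynomial.eval_X]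
    have h1 : ∑ k, B ^ (e k : ℕ) = ∑ k, B ^ (e (σ k) : ℕ) :=
      (Equiv.sum_comp σ fun k => B ^ (e k : ℕ)).symm
    have h2 : ∀ i, c i * B ^ (e (σ i) : ℕ) =
        Fintype.card n * B ^ (e (σ i) : ℕ) * m i - (∑ k, m k) * B ^ (e (σ i) : ℕ) := by
      intro i
      show ((Fintype.card n : ℤ) * m i - ∑ k, m k) * B ^ (e (σ i) : ℕ) = _
      ring
    simp_rw [h2, sub_mul]
    rw [Finset.sum_sub_distrib, Finset.sum_sub_distrib, ← Finset.mul_sum, ← Finset.mul_sum, h1]
    ring

end Pool.Agent.Helper67.KM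

namespace Pool.Agent.Helper79.KM

open Pool.Agent.Helper67.KM

variable {K : Type} [Field K] {n : Type} [Fintype n] [DecidableEq n]
variable {Γ : Type} [Group Γ]

/-- B6: a multiplicative relation between the eigenvalues of all elements is trivial -/
theorem no_rel [CharZero K] [IsAlgClosed K] {ρ : Γ →* GL n K} {Δ : Subgroup Γ}
    (hfull : ∀ M : Matrix n n K, M.det = 1 → M ∈ zcl {s | ∃ γ ∈ Δ, s = (ρ γ : Matrix n n K)}) (m : n → ℤ)
    (h : ∀ γ ∈ Δ, ∃ v : n → K, (ρ γ : Matrix n n K).charpoly = ∏ i, (Polynomial.X - Polynomial.C (v i)) ∧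
      ∏ i, v i ^ m i = 1) : ∀ i j, m i = m j := by
  classical
  by_contra hcon
  obtain ⟨a, ha, hσ⟩ := exists_diag m hcon
  obtain ⟨p, hp⟩ := exists_poly (K := K) (rel m) (rel_symm m)
  have h20 : (2 : K) ≠ 0 := two_ne_zero
  let t : n → K := fun i => 2 ^ a i
  have hdet : (Matrix.diagonal t).det = 1 := by
    rw [Matrix.det_diagonal]
    show ∏ i, (2 : K) ^ a i = 1
    rw [← zpow_zero (2 : K), ← ha]
    exact prod_zp _ _ h20
  have h1 := hfull _ hdet p (by
    rintro s ⟨γ, hγ, rfl⟩
    obtain ⟨v, hv, hv'⟩ := h γ hγ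
    rw [hp _ v hv, rel_zero hv'])
  have h2 : (Matrix.diagonal t).charpoly = ∏ i, (Polynomial.X - Polynomial.C (t i)) :=
    Matrix.charpoly_diagonal t
  rw [hp _ t h2, eval_rel, Finset.prod_eq_zero_iff] at h1
  obtain ⟨σ, -, h3⟩ := h1
  apply hσ σ
  rw [sub_eq_zero] at h3
  have h4 : ∀ b : n → ℕ, ∏ i, t (σ i) ^ b i = (2 : K) ^ (∑ i, a (σ i) * (b i : ℤ)) := by
    intro b
    rw [← prod_zp _ _ h20]
    refine Finset.prod_congr rfl fun i _ => ?_
    rw [_root_.zpow_mul, _root_.zpow_natCast]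
  rw [h4, h4] at h3
  have h5 := two_zpow h3
  have h6 : ∀ i, a (σ i) * m i = a (σ i) * ((m i).toNat : ℤ) - a (σ i) * ((-m i).toNat : ℤ) := by
    intro i
    rw [← mul_sub]
    congr 1
    omega
  rw [Finset.sum_congr rfl fun i _ => h6 i, Finset.sum_sub_distrib, h5, sub_self]

end Pool.Agent.Helper79.KM
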